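import Pool.Agent.Helper4.S7.StD3

/-!
# Project W7, module TRF: coefficients of the leading forms
-/

set_option autoImplicit false

namespace Pool.Agent.Helper34.S7

open Pool.Agent.Helper4.S7 Pool.Agent.Helper84.S7 Pool.Agent.Helper52.S7 Pool.Agent.Helper76.S7

/-! ### Identities for commuting elements -/

section comm

private theorem tr_ring {E : Type} [Ring E] [Algebra (ZMod 7) E] (D Y : E) (h : D * Y = Y * D) :
    ∃ (S : Type) (_ : CommRing S) (_ : Algebra (ZMod 7) S) (φ : S →ₐ[ZMod 7] E) (x y : S), φ x = D ∧ φ y = Y := by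
  have hc : ∀ a ∈ ({D, Y} : Set E), ∀ b ∈ ({D, Y} : Set E), a * b = b * a := by
    rintro a (rfl | rfl) b (rfl | rfl)
    · rfl
    · exact h
    · exact h.symm
    · rfl
  have hm : IsMulCommutative (Algebra.adjoin (ZMod 7) ({D, Y} : Set E)) := Algebra.isMulCommutative_adjoin (ZMod 7) hc
  let c : CommRing (Algebra.adjoin (ZMod 7) ({D, Y} : Set E)) :=
    { (inferInstance : Ring (Algebra.adjoin (ZMod 7) ({D, Y} : Set E))) with
      mul_comm := fun a b => hm.is_comm.comm a b }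
  exact ⟨Algebra.adjoin (ZMod 7) {D, Y}, c, inferInstance, (Algebra.adjoin (ZMod 7) {D, Y}).val,
    ⟨D, Algebra.subset_adjoin (by simp)⟩, ⟨Y, Algebra.subset_adjoin (by simp)⟩, rfl, rfl⟩

variable {S : Type} [CommRing S] [Algebra (ZMod 7) S]

private theorem c0 (x y : S) (i j : ℕ) :
    ((3 : ZMod 7) • (x * y)) ^ i * ((5 : ZMod 7) • (x ^ 7 * y + x ^ 4 * y ^ 4 + x * y ^ 7)) ^ j =
    ((3 : ZMod 7) ^ i * 5 ^ j) • ((x ^ (i + j) * (x ^ 6 + x ^ 3 * y ^ 3 + y ^ 6) ^ j) * y ^ (i + j)) := by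
  have e : x ^ 7 * y + x ^ 4 * y ^ 4 + x * y ^ 7 = x * y * (x ^ 6 + x ^ 3 * y ^ 3 + y ^ 6) := by ring
  rw [e]
  simp only [Algebra.smul_def, map_mul, map_pow]
  generalize x ^ 6 + x ^ 3 * y ^ 3 + y ^ 6 = A
  ring

private theorem c11 (x y : S) (i j : ℕ) :
    (6 : ZMod 7) • (x ^ 2 * (((4 : ZMod 7) • (x * y)) ^ i *
      (((4 : ZMod 7) • (x ^ 3 * y + y ^ 4)) * (x ^ 4 + x * y ^ 3)) ^ j)) =
    ((6 : ZMod 7) * 4 ^ i * 4 ^ j) • ((x ^ (2 + (i + j)) * (x ^ 3 + y ^ 3) ^ (2 * j)) * y ^ (i + j)) := by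
  have e1 : x ^ 3 * y + y ^ 4 = y * (x ^ 3 + y ^ 3) := by ring
  have e2 : x ^ 4 + x * y ^ 3 = x * (x ^ 3 + y ^ 3) := by ring
  rw [e1, e2]
  simp only [Algebra.smul_def, map_mul, map_pow]
  generalize x ^ 3 + y ^ 3 = A
  ring

private theorem c12 (x y : S) (i j : ℕ) :
    (5 : ZMod 7) • (y ^ 2 * (((4 : ZMod 7) • (x * y)) ^ i *
      (((4 : ZMod 7) • (x ^ 3 * y + y ^ 4)) * (x ^ 4 + x * y ^ 3)) ^ j)) =
    ((5 : ZMod 7) * 4 ^ i * 4 ^ j) • ((x ^ (i + j) * (x ^ 3 + y ^ 3) ^ (2 * j)) * y ^ (i + j + 2)) := by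
  have e1 : x ^ 3 * y + y ^ 4 = y * (x ^ 3 + y ^ 3) := by ring
  have e2 : x ^ 4 + x * y ^ 3 = x * (x ^ 3 + y ^ 3) := by ring
  rw [e1, e2]
  simp only [Algebra.smul_def, map_mul, map_pow]
  generalize x ^ 3 + y ^ 3 = A
  ring

private theorem c21 (x y : S) (i j : ℕ) :
    (5 : ZMod 7) • (y ^ 2 * (((4 : ZMod 7) • (x * y)) ^ i *
      (((4 : ZMod 7) • (x ^ 3 * y + y ^ 4)) * (x ^ 4 + x * y ^ 3)) ^ j) * (x ^ 4 + x * y ^ 3)) =
    ((5 : ZMod 7) * 4 ^ i * 4 ^ j) • ((x ^ (i + j + 1) * (x ^ 3 + y ^ 3) ^ (2 * j + 1)) * y ^ (i + j + 2)) := by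
  have e1 : x ^ 3 * y + y ^ 4 = y * (x ^ 3 + y ^ 3) := by ring
  have e2 : x ^ 4 + x * y ^ 3 = x * (x ^ 3 + y ^ 3) := by ring
  rw [e1, e2]
  simp only [Algebra.smul_def, map_mul, map_pow]
  generalize x ^ 3 + y ^ 3 = A
  ring

private theorem c22 (x y : S) (i j : ℕ) :
    (6 : ZMod 7) • (x ^ 2 * (((4 : ZMod 7) • (x * y)) ^ i *
      (((4 : ZMod 7) • (x ^ 3 * y + y ^ 4)) * (x ^ 4 + x * y ^ 3)) ^ j) * ((4 : ZMod 7) • (x ^ 3 * y + y ^ 4))) =
    ((6 : ZMod 7) * 4 ^ i * 4 ^ j * 4) • ((x ^ (2 + (i + j)) * (x ^ 3 + y ^ 3) ^ (2 * j + 1)) * y ^ (1 + i + j)) := by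
  have e1 : x ^ 3 * y + y ^ 4 = y * (x ^ 3 + y ^ 3) := by ring
  have e2 : x ^ 4 + x * y ^ 3 = x * (x ^ 3 + y ^ 3) := by ring
  rw [e1, e2]
  simp only [Algebra.smul_def, map_mul, map_pow]
  generalize x ^ 3 + y ^ 3 = A
  ring

private theorem c3 (x y : S) (i j : ℕ) :
    (4 : ZMod 7) • ((x ^ 3 * y - y ^ 4) * (((3 : ZMod 7) • (x * y)) ^ i *
      ((2 : ZMod 7) • (x ^ 7 * y + x ^ 4 * y ^ 4 + x * y ^ 7)) ^ j)) =
    ((4 : ZMod 7) * 3 ^ i * 2 ^ j) • (((x ^ 3 - y ^ 3) * (x ^ (i + j) * (x ^ 6 + x ^ 3 * y ^ 3 + y ^ 6) ^ j)) *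
      y ^ (1 + i + j)) := by
  have e : x ^ 7 * y + x ^ 4 * y ^ 4 + x * y ^ 7 = x * y * (x ^ 6 + x ^ 3 * y ^ 3 + y ^ 6) := by ring
  rw [e]
  simp only [Algebra.smul_def, map_mul, map_pow]
  generalize x ^ 6 + x ^ 3 * y ^ 3 + y ^ 6 = A
  ring

end comm

section forms

variable {r s : ℕ}

private theorem tr_end (hl : S7Low0) : ∃ (S : Type) (_ : CommRing S) (_ : Algebra (ZMod 7) S)
    (φ : S →ₐ[ZMod 7] Module.End (ZMod 7) (Fn7 (7 ^ r) (7 ^ s))) (x y : S), φ x = dX ∧ φ y = dY :=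
  tr_ring _ _ (hl r s).2.2.2.2.2.2.2.2.1

private theorem f0 (hl : S7Low0) (i j : ℕ) :
    (PP7 0 i j 0 : Module.End (ZMod 7) (Fn7 (7 ^ r) (7 ^ s))) =
    ((3 : ZMod 7) ^ i * 5 ^ j) • ((dX ^ (i + j) * (dX ^ 6 + dX ^ 3 * dY ^ 3 + dY ^ 6) ^ j) * dY ^ (i + j)) := by
  change Qa ^ i * La ^ j = _
  unfold Qa La
  obtain ⟨S, _, _, φ, x, y, hx, hy⟩ := tr_end (r := r) (s := s) hl
  rw [← hx, ← hy]
  simp only [← map_mul, ← map_pow, ← map_add, ← map_smul]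
  rw [c0]

private theorem f11 (hl : S7Low0) (i j : ℕ) :
    (PP7 1 i j 1 : Module.End (ZMod 7) (Fn7 (7 ^ r) (7 ^ s))) =
    ((6 : ZMod 7) * 4 ^ i * 4 ^ j) • ((dX ^ (2 + (i + j)) * (dX ^ 3 + dY ^ 3) ^ (2 * j)) * dY ^ (i + j)) := by
  change (6 : ZMod 7) • (dX ^ 2 * (Qb ^ i * (Ka * Kb) ^ j)) = _
  unfold Qb Ka Kb
  obtain ⟨S, _, _, φ, x, y, hx, hy⟩ := tr_end (r := r) (s := s) hl
  rw [← hx, ← hy]
  simp only [← map_mul, ← map_pow, ← map_add, ← map_smul]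
  rw [c11]

private theorem f12 (hl : S7Low0) (i j : ℕ) :
    (PP7 1 i j 2 : Module.End (ZMod 7) (Fn7 (7 ^ r) (7 ^ s))) =
    ((5 : ZMod 7) * 4 ^ i * 4 ^ j) • ((dX ^ (i + j) * (dX ^ 3 + dY ^ 3) ^ (2 * j)) * dY ^ (i + j + 2)) := by
  change (5 : ZMod 7) • (dY ^ 2 * (Qb ^ i * (Ka * Kb) ^ j)) = _
  unfold Qb Ka Kb
  obtain ⟨S, _, _, φ, x, y, hx, hy⟩ := tr_end (r := r) (s := s) hl
  rw [← hx, ← hy]
  simp only [← map_mul, ← map_pow, ← map_add, ← map_smul]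
  rw [c12]

private theorem f21 (hl : S7Low0) (i j : ℕ) :
    (PP7 2 i j 1 : Module.End (ZMod 7) (Fn7 (7 ^ r) (7 ^ s))) =
    ((5 : ZMod 7) * 4 ^ i * 4 ^ j) • ((dX ^ (i + j + 1) * (dX ^ 3 + dY ^ 3) ^ (2 * j + 1)) * dY ^ (i + j + 2)) := by
  change (5 : ZMod 7) • (dY ^ 2 * (Qb ^ i * (Ka * Kb) ^ j) * Kb) = _
  unfold Qb Ka Kb
  obtain ⟨S, _, _, φ, x, y, hx, hy⟩ := tr_end (r := r) (s := s) hl
  rw [← hx, ← hy]
  simp only [← map_mul, ← map_pow, ← map_add, ← map_smul]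
  rw [c21]

private theorem f22 (hl : S7Low0) (i j : ℕ) :
    (PP7 2 i j 2 : Module.End (ZMod 7) (Fn7 (7 ^ r) (7 ^ s))) =
    ((6 : ZMod 7) * 4 ^ i * 4 ^ j * 4) •
      ((dX ^ (2 + (i + j)) * (dX ^ 3 + dY ^ 3) ^ (2 * j + 1)) * dY ^ (1 + i + j)) := by
  change (6 : ZMod 7) • (dX ^ 2 * (Qb ^ i * (Ka * Kb) ^ j) * Ka) = _
  unfold Qb Ka Kb
  obtain ⟨S, _, _, φ, x, y, hx, hy⟩ := tr_end (r := r) (s := s) hl
  rw [← hx, ← hy]
  simp only [← map_mul, ← map_pow, ← map_add, ← map_smul]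
  rw [c22]

private theorem f3 (hl : S7Low0) (i j : ℕ) :
    (PP7 3 i j 3 : Module.End (ZMod 7) (Fn7 (7 ^ r) (7 ^ s))) =
    ((4 : ZMod 7) * 3 ^ i * 2 ^ j) •
      (((dX ^ 3 - dY ^ 3) * (dX ^ (i + j) * (dX ^ 6 + dX ^ 3 * dY ^ 3 + dY ^ 6) ^ j)) * dY ^ (1 + i + j)) := by
  change (4 : ZMod 7) • ((dX ^ 3 * dY - dY ^ 4) * (Qa ^ i * Lc ^ j)) = _
  unfold Qa Lc
  obtain ⟨S, _, _, φ, x, y, hx, hy⟩ := tr_end (r := r) (s := s) hl
  rw [← hx, ← hy]
  simp only [← map_mul, ← map_pow, ← map_add, ← map_sub, ← map_smul]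
  rw [c3]

/-! ### Values on the binomial basis -/

private theorem dy_pow (hb : S7Bb) (p q m : ℕ) (hp : p < 7 ^ r) (hq : m + q < 7 ^ s) :
    (dY ^ m : Module.End (ZMod 7) (Fn7 (7 ^ r) (7 ^ s))) (bb7 p (m + q)) = bb7 p q := by
  induction m with
  | zero =>
    rw [pow_zero, zero_add]
    rfl
  | succ m ih =>
    have h1 : m + 1 + q = (m + q) + 1 := by ring
    rw [pow_succ, Module.End.mul_apply, h1,
      (hb r s).2.2.1 p (m + q) hp (by omega)]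
    exact ih (by omega)

private theorem dx_pow (hb : S7Bb) (p q m : ℕ) (hq : q < 7 ^ s) (hp : m + p < 7 ^ r) :
    (dX ^ m : Module.End (ZMod 7) (Fn7 (7 ^ r) (7 ^ s))) (bb7 (m + p) q) = bb7 p q := by
  induction m with
  | zero =>
    rw [pow_zero, zero_add]
    rfl
  | succ m ih =>
    have h1 : m + 1 + p = (m + p) + 1 := by ring
    rw [pow_succ, Module.End.mul_apply, h1,
      (hb r s).2.1 (m + p) q (by omega) hq]
    exact ih (by omega)

private theorem dy_kill (hb : S7Bb) (p q m : ℕ) (hp : p < 7 ^ r) (hq : q < 7 ^ s) (h : q < m) :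
    (dY ^ m : Module.End (ZMod 7) (Fn7 (7 ^ r) (7 ^ s))) (bb7 p q) = 0 := by
  obtain ⟨c, rfl⟩ : ∃ c, m = c + (1 + q) := ⟨m - (1 + q), by omega⟩
  rw [pow_add, pow_add, Module.End.mul_apply, Module.End.mul_apply]
  have h1 := dy_pow (r := r) (s := s) hb p 0 q hp (by omega)
  rw [add_zero] at h1
  rw [h1, pow_one, (hb r s).2.2.2.2.1 p hp, map_zero]

/-- `O` lowers the first index by `a` on the functions of `x` -/
private def Shf (O : Module.End (ZMod 7) (Fn7 (7 ^ r) (7 ^ s))) (a : ℕ) : Prop :=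
  ∀ p, a + p < 7 ^ r → O (bb7 (a + p) 0) = bb7 p 0

private theorem qq_mul {O O' : Module.End (ZMod 7) (Fn7 (7 ^ r) (7 ^ s))} {a a' : ℕ} (h : Shf O a) (h' : Shf O' a') :
    Shf (O * O') (a + a') := by
  intro p hp
  have e : a + a' + p = a' + (a + p) := by ring
  rw [Module.End.mul_apply, e, h' (a + p) (by omega), h p (by omega)]

private theorem qq_pow {O : Module.End (ZMod 7) (Fn7 (7 ^ r) (7 ^ s))} {a : ℕ} (h : Shf O a) (n : ℕ) :
    Shf (O ^ n) (n * a) := by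
  induction n with
  | zero =>
    intro p _
    rw [pow_zero, zero_mul, zero_add]
    rfl
  | succ n ih =>
    have h1 := qq_mul ih h
    rwa [← pow_succ, show n * a + a = (n + 1) * a by ring] at h1

private theorem qq_x (hb : S7Bb) (n : ℕ) : Shf (dX ^ n : Module.End (ZMod 7) (Fn7 (7 ^ r) (7 ^ s))) n :=
  fun p hp => dx_pow hb p 0 n (by positivity) hp

private theorem y_zero (hb : S7Bb) (p n : ℕ) (hp : p < 7 ^ r) (hn : 0 < n) :
    (dY ^ n : Module.End (ZMod 7) (Fn7 (7 ^ r) (7 ^ s))) (bb7 p 0) = 0 :=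
  dy_kill hb p 0 n hp (by positivity) hn

private theorem qq_c (hb : S7Bb) : Shf (dX ^ 3 + dY ^ 3 : Module.End (ZMod 7) (Fn7 (7 ^ r) (7 ^ s))) 3 := by
  intro p hp
  rw [LinearMap.add_apply, qq_x hb 3 p hp, y_zero hb _ 3 hp (by norm_num), add_zero]

private theorem qq_d (hb : S7Bb) : Shf (dX ^ 3 - dY ^ 3 : Module.End (ZMod 7) (Fn7 (7 ^ r) (7 ^ s))) 3 := by
  intro p hp
  rw [LinearMap.sub_apply, qq_x hb 3 p hp, y_zero hb _ 3 hp (by norm_num), sub_zero]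

private theorem qq_a (hb : S7Bb) :
    Shf (dX ^ 6 + dX ^ 3 * dY ^ 3 + dY ^ 6 : Module.End (ZMod 7) (Fn7 (7 ^ r) (7 ^ s))) 6 := by
  intro p hp
  rw [LinearMap.add_apply, LinearMap.add_apply, qq_x hb 6 p hp, y_zero hb _ 6 hp (by norm_num), add_zero,
    Module.End.mul_apply, y_zero hb _ 3 hp (by norm_num), map_zero, add_zero]

private theorem val (hb : S7Bb) {O : Module.End (ZMod 7) (Fn7 (7 ^ r) (7 ^ s))} {A : ℕ} (hO : Shf O A) (k : ZMod 7)
    (hk : k ≠ 0) {A' : ℕ} (hA' : A' = A) (B : ℕ) (hA : A' < 7 ^ r) (hB : B < 7 ^ s) :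
    ((k • (O * dY ^ B) : Module.End (ZMod 7) (Fn7 (7 ^ r) (7 ^ s))) (bb7 A' B)) 0 0 ≠ 0 := by
  subst hA'
  have h1 := dy_pow (r := r) (s := s) hb A' 0 B hA (by omega)
  rw [add_zero] at h1
  have h2 := hO 0 (by omega)
  rw [add_zero] at h2
  have h5 : ((bb7 0 0 : Fn7 (7 ^ r) (7 ^ s)) 0 0) = 1 := by simp [bb7]
  rw [LinearMap.smul_apply, Module.End.mul_apply, h1, h2, Pi.smul_apply, Pi.smul_apply, h5, smul_eq_mul, mul_one]
  exact hk

private theorem kil (hb : S7Bb) (O : Module.End (ZMod 7) (Fn7 (7 ^ r) (7 ^ s))) (k : ZMod 7) (A B m : ℕ)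
    (hA : A < 7 ^ r) (hB : B < 7 ^ s) (h : B < m) :
    ((k • (O * dY ^ m) : Module.End (ZMod 7) (Fn7 (7 ^ r) (7 ^ s))) (bb7 A B)) 0 0 = 0 := by
  rw [LinearMap.smul_apply, Module.End.mul_apply, dy_kill hb A B m hA hB h, map_zero, smul_zero]
  rfl

/-! ### Degrees -/

private theorem lw_zero (k : ℤ) : Lw (0 : Module.End (ZMod 7) (Fn7 (7 ^ r) (7 ^ s))) k :=
  fun _ _ _ => Submodule.zero_mem _

private theorem lw_pow (hl : S7Low0) {O : Module.End (ZMod 7) (Fn7 (7 ^ r) (7 ^ s))} {k : ℤ} (h : Lw O k) (i : ℕ) :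
    Lw (O ^ i) ((i : ℤ) * k) := by
  induction i with
  | zero =>
    rw [pow_zero, Nat.cast_zero, zero_mul]
    exact (hl r s).2.2.2.2.2.1
  | succ i ih =>
    have h1 : ((i + 1 : ℕ) : ℤ) * k = (i : ℤ) * k + k := by
      push_cast
      ring
    rw [pow_succ, h1]
    exact (hl r s).1 _ _ _ _ ih h

private theorem lw_mul (hl : S7Low0) {O O' : Module.End (ZMod 7) (Fn7 (7 ^ r) (7 ^ s))} {k k' k'' : ℤ} (h : Lw O k)
    (h' : Lw O' k') (e : k + k' = k'') : Lw (O * O') k'' := by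
  rw [← e]
  exact (hl r s).1 _ _ _ _ h h'

private theorem lw_add (hl : S7Low0) {O O' : Module.End (ZMod 7) (Fn7 (7 ^ r) (7 ^ s))} {k : ℤ} (h : Lw O k)
    (h' : Lw O' k) : Lw (O + O') k := (hl r s).2.1 _ _ _ h h'

private theorem lw_smul (hl : S7Low0) (c : ZMod 7) {O : Module.End (ZMod 7) (Fn7 (7 ^ r) (7 ^ s))} {k : ℤ}
    (h : Lw O k) : Lw (c • O) k := (hl r s).2.2.1 _ _ _ h

private theorem lw_sub {O O' : Module.End (ZMod 7) (Fn7 (7 ^ r) (7 ^ s))} {k : ℤ} (h : Lw O k)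
    (h' : Lw O' k) : Lw (O - O') k := by
  intro d F hF
  rw [LinearMap.sub_apply]
  exact Submodule.sub_mem _ (h d F hF) (h' d F hF)

private theorem lw_x (hl : S7Low0) (i : ℕ) : Lw (dX ^ i : Module.End (ZMod 7) (Fn7 (7 ^ r) (7 ^ s))) i := by
  have h := lw_pow hl (hl r s).2.2.2.2.2.2.1 i
  rwa [mul_one] at h

private theorem lw_y (hl : S7Low0) (i : ℕ) : Lw (dY ^ i : Module.End (ZMod 7) (Fn7 (7 ^ r) (7 ^ s))) i := by
  have h := lw_pow hl (hl r s).2.2.2.2.2.2.2.1 i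
  rwa [mul_one] at h

private theorem lw_x1 (hl : S7Low0) : Lw (dX : Module.End (ZMod 7) (Fn7 (7 ^ r) (7 ^ s))) 1 :=
  (hl r s).2.2.2.2.2.2.1

private theorem lw_y1 (hl : S7Low0) : Lw (dY : Module.End (ZMod 7) (Fn7 (7 ^ r) (7 ^ s))) 1 :=
  (hl r s).2.2.2.2.2.2.2.1

private theorem lw_Qa (hl : S7Low0) : Lw (Qa : Module.End (ZMod 7) (Fn7 (7 ^ r) (7 ^ s))) 2 :=
  lw_smul hl _ (lw_mul hl (lw_x1 hl) (lw_y1 hl) (by norm_num))

private theorem lw_Qb (hl : S7Low0) : Lw (Qb : Module.End (ZMod 7) (Fn7 (7 ^ r) (7 ^ s))) 2 :=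
  lw_smul hl _ (lw_mul hl (lw_x1 hl) (lw_y1 hl) (by norm_num))

private theorem lw_L (hl : S7Low0) :
    Lw (dX ^ 7 * dY + dX ^ 4 * dY ^ 4 + dX * dY ^ 7 : Module.End (ZMod 7) (Fn7 (7 ^ r) (7 ^ s))) 8 :=
  lw_add hl (lw_add hl (lw_mul hl (lw_x hl 7) (lw_y1 hl) (by norm_num)) (lw_mul hl (lw_x hl 4) (lw_y hl 4) (by norm_num)))
    (lw_mul hl (lw_x1 hl) (lw_y hl 7) (by norm_num))

private theorem lw_La (hl : S7Low0) : Lw (La : Module.End (ZMod 7) (Fn7 (7 ^ r) (7 ^ s))) 8 :=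
  lw_smul hl _ (lw_L hl)

private theorem lw_Lc (hl : S7Low0) : Lw (Lc : Module.End (ZMod 7) (Fn7 (7 ^ r) (7 ^ s))) 8 :=
  lw_smul hl _ (lw_L hl)

private theorem lw_Ka (hl : S7Low0) : Lw (Ka : Module.End (ZMod 7) (Fn7 (7 ^ r) (7 ^ s))) 4 :=
  lw_smul hl _ (lw_add hl (lw_mul hl (lw_x hl 3) (lw_y1 hl) (by norm_num)) (lw_y hl 4))

private theorem lw_Kb (hl : S7Low0) : Lw (Kb : Module.End (ZMod 7) (Fn7 (7 ^ r) (7 ^ s))) 4 :=
  lw_add hl (lw_x hl 4) (lw_mul hl (lw_x1 hl) (lw_y hl 3) (by norm_num))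

private theorem lw_QK (hl : S7Low0) (i j : ℕ) :
    Lw (Qb ^ i * (Ka * Kb) ^ j : Module.End (ZMod 7) (Fn7 (7 ^ r) (7 ^ s))) ((i : ℤ) * 2 + j * 8) :=
  lw_mul hl (lw_pow hl (lw_Qb hl) i) (lw_pow hl (lw_mul hl (lw_Ka hl) (lw_Kb hl) (by norm_num : (4 : ℤ) + 4 = 8)) j) rfl

private theorem low_all (hl : S7Low0) (c i j : ℕ) (o : Fin 4) (hc : c ≤ 3) :
    Lw (PP7 c i j o : Module.End (ZMod 7) (Fn7 (7 ^ r) (7 ^ s))) (dg7 c i j) := by
  obtain rfl | rfl | rfl | rfl : c = 0 ∨ c = 1 ∨ c = 2 ∨ c = 3 := by omega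
  · have e : ((dg7 0 i j : ℕ) : ℤ) = (i : ℤ) * 2 + j * 8 := by
      simp only [dg7, aa7, ab7]
      push_cast
      ring
    rw [e]
    change Lw (if o = 0 then Qa ^ i * La ^ j else 0) _
    split_ifs
    · exact lw_mul hl (lw_pow hl (lw_Qa hl) i) (lw_pow hl (lw_La hl) j) rfl
    · exact lw_zero _
  · have e : ((dg7 1 i j : ℕ) : ℤ) = 2 + ((i : ℤ) * 2 + j * 8) := by
      simp only [dg7, aa7, ab7]
      norm_num
      ring
    rw [e]
    change Lw (if o = 1 then (6 : ZMod 7) • (dX ^ 2 * (Qb ^ i * (Ka * Kb) ^ j))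
      else if o = 2 then (5 : ZMod 7) • (dY ^ 2 * (Qb ^ i * (Ka * Kb) ^ j)) else 0) _
    split_ifs
    · exact lw_smul hl _ (lw_mul hl (lw_x hl 2) (lw_QK hl i j) rfl)
    · exact lw_smul hl _ (lw_mul hl (lw_y hl 2) (lw_QK hl i j) rfl)
    · exact lw_zero _
  · have e : ((dg7 2 i j : ℕ) : ℤ) = 2 + ((i : ℤ) * 2 + j * 8) + 4 := by
      simp only [dg7, aa7, ab7]
      norm_num
      ring
    rw [e]
    change Lw (if o = 1 then (5 : ZMod 7) • (dY ^ 2 * (Qb ^ i * (Ka * Kb) ^ j) * Kb)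
      else if o = 2 then (6 : ZMod 7) • (dX ^ 2 * (Qb ^ i * (Ka * Kb) ^ j) * Ka) else 0) _
    split_ifs
    · exact lw_smul hl _ (lw_mul hl (lw_mul hl (lw_y hl 2) (lw_QK hl i j) rfl) (lw_Kb hl) rfl)
    · exact lw_smul hl _ (lw_mul hl (lw_mul hl (lw_x hl 2) (lw_QK hl i j) rfl) (lw_Ka hl) rfl)
    · exact lw_zero _
  · have e : ((dg7 3 i j : ℕ) : ℤ) = 4 + ((i : ℤ) * 2 + j * 8) := by
      simp only [dg7, aa7, ab7]
      norm_num
      ring
    rw [e]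
    change Lw (if o = 3 then (4 : ZMod 7) • ((dX ^ 3 * dY - dY ^ 4) * (Qa ^ i * Lc ^ j)) else 0) _
    split_ifs
    · exact lw_smul hl _ (lw_mul hl (lw_sub (lw_mul hl (lw_x hl 3) (lw_y1 hl) (by norm_num)) (lw_y hl 4))
        (lw_mul hl (lw_pow hl (lw_Qa hl) i) (lw_pow hl (lw_Lc hl) j) rfl) rfl)
    · exact lw_zero _

end forms

/-- TRF. -/
theorem hTrf (hl : S7Low0) (hb : S7Bb) : S7Trf := by
  intro r s
  have n2 : (2 : ZMod 7) ≠ 0 := by decide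
  have n3 : (3 : ZMod 7) ≠ 0 := by decide
  have n4 : (4 : ZMod 7) ≠ 0 := by decide
  have n5 : (5 : ZMod 7) ≠ 0 := by decide
  have n6 : (6 : ZMod 7) ≠ 0 := by decide
  have hp7 : Fact (Nat.Prime 7) := ⟨by norm_num⟩
  refine ⟨fun c i j o hc => low_all hl c i j o hc, ?_, ?_⟩
  · intro c i j o ho h1 h2
    obtain rfl | rfl | rfl | rfl : c = 0 ∨ c = 1 ∨ c = 2 ∨ c = 3 := by
      have := o.isLt
      omega
    · obtain rfl : o = 0 := Fin.ext ho
      change 0 + i + 7 * j < 7 ^ r at h1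
      change 0 + i + j < 7 ^ s at h2
      change (PP7 0 i j 0 : Module.End (ZMod 7) (Fn7 (7 ^ r) (7 ^ s))) (bb7 (0 + i + 7 * j) (0 + i + j)) 0 0 ≠ 0
      rw [f0 hl, zero_add] at *
      exact val hb (qq_mul (qq_x hb (i + j)) (qq_pow (qq_a hb) j)) _
        (mul_ne_zero (pow_ne_zero _ n3) (pow_ne_zero _ n5)) (by ring) _ h1 h2
    · obtain rfl : o = 1 := Fin.ext ho
      change 2 + i + 7 * j < 7 ^ r at h1
      change 0 + i + j < 7 ^ s at h2
      change (PP7 1 i j 1 : Module.End (ZMod 7) (Fn7 (7 ^ r) (7 ^ s))) (bb7 (2 + i + 7 * j) (0 + i + j)) 0 0 ≠ 0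
      rw [zero_add] at *
      rw [f11 hl]
      exact val hb (qq_mul (qq_x hb (2 + (i + j))) (qq_pow (qq_c hb) (2 * j))) _
        (mul_ne_zero (mul_ne_zero n6 (pow_ne_zero _ n4)) (pow_ne_zero _ n4)) (by ring) _ h1 h2
    · obtain rfl : o = 2 := Fin.ext ho
      change 5 + i + 7 * j < 7 ^ r at h1
      change 1 + i + j < 7 ^ s at h2
      change (PP7 2 i j 2 : Module.End (ZMod 7) (Fn7 (7 ^ r) (7 ^ s))) (bb7 (5 + i + 7 * j) (1 + i + j)) 0 0 ≠ 0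
      rw [f22 hl]
      exact val hb (qq_mul (qq_x hb (2 + (i + j))) (qq_pow (qq_c hb) (2 * j + 1))) _
        (mul_ne_zero (mul_ne_zero (mul_ne_zero n6 (pow_ne_zero _ n4)) (pow_ne_zero _ n4)) n4) (by ring) _ h1 h2
    · obtain rfl : o = 3 := Fin.ext ho
      change 3 + i + 7 * j < 7 ^ r at h1
      change 1 + i + j < 7 ^ s at h2
      change (PP7 3 i j 3 : Module.End (ZMod 7) (Fn7 (7 ^ r) (7 ^ s))) (bb7 (3 + i + 7 * j) (1 + i + j)) 0 0 ≠ 0
      rw [f3 hl]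
      exact val hb (qq_mul (qq_d hb) (qq_mul (qq_x hb (i + j)) (qq_pow (qq_a hb) j))) _
        (mul_ne_zero (mul_ne_zero n4 (pow_ne_zero _ n3)) (pow_ne_zero _ n2)) (by ring) _ h1 h2
  · intro c i j c' i' j' o ho hc' h1 h2 _ hne
    have hc : c ≤ 3 := by
      have := o.isLt
      omega
    -- the types agree
    have hty : ty7 c' = ty7 c := by
      by_contra hcon
      apply hne
      have hz : (PP7 c' i' j' o : Module.End (ZMod 7) (Fn7 (7 ^ r) (7 ^ s))) = 0 := by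
        have ho' : ∀ k : Fin 4, o = k → c = k.val := fun k hk => by rw [← ho, hk]
        obtain rfl | rfl | rfl | rfl : c' = 0 ∨ c' = 1 ∨ c' = 2 ∨ c' = 3 := by omega
        · change (if o = 0 then Qa ^ i' * La ^ j' else 0) = _
          rw [if_neg]
          intro h
          exact hcon (by rw [ho' 0 h]; rfl)
        · change (if o = 1 then (6 : ZMod 7) • (dX ^ 2 * (Qb ^ i' * (Ka * Kb) ^ j'))
            else if o = 2 then (5 : ZMod 7) • (dY ^ 2 * (Qb ^ i' * (Ka * Kb) ^ j')) else 0) = _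
          rw [if_neg, if_neg]
          · intro h
            exact hcon (by rw [ho' 2 h]; rfl)
          · intro h
            exact hcon (by rw [ho' 1 h]; rfl)
        · change (if o = 1 then (5 : ZMod 7) • (dY ^ 2 * (Qb ^ i' * (Ka * Kb) ^ j') * Kb)
            else if o = 2 then (6 : ZMod 7) • (dX ^ 2 * (Qb ^ i' * (Ka * Kb) ^ j') * Ka) else 0) = _
          rw [if_neg, if_neg]
          · intro h
            exact hcon (by rw [ho' 2 h]; rfl)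
          · intro h
            exact hcon (by rw [ho' 1 h]; rfl)
        · change (if o = 3 then (4 : ZMod 7) • ((dX ^ 3 * dY - dY ^ 4) * (Qa ^ i' * Lc ^ j')) else 0) = _
          rw [if_neg]
          intro h
          exact hcon (by rw [ho' 3 h]; rfl)
      rw [hz]
      rfl
    refine ⟨hty, ?_⟩
    by_contra hcon
    apply hne
    obtain rfl | rfl | rfl | rfl : c' = 0 ∨ c' = 1 ∨ c' = 2 ∨ c' = 3 := by omega
    · obtain rfl | rfl | rfl | rfl : c = 0 ∨ c = 1 ∨ c = 2 ∨ c = 3 := by omega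
      · obtain rfl : o = 0 := Fin.ext ho
        change ¬ (i' + j' + 0 ≤ i + j + 0) at hcon
        have hB : ab7 0 + i + j < i' + j' := by
          change 0 + i + j < _
          omega
        rw [f0 hl]
        exact kil hb _ _ _ _ _ h1 h2 hB
      · exact absurd hty (by decide)
      · exact absurd hty (by decide)
      · exact absurd hty (by decide)
    · obtain rfl | rfl | rfl | rfl : c = 0 ∨ c = 1 ∨ c = 2 ∨ c = 3 := by omega
      · exact absurd hty (by decide)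
      · obtain rfl : o = 1 := Fin.ext ho
        change ¬ (i' + j' + 0 ≤ i + j + 0) at hcon
        have hB : ab7 1 + i + j < i' + j' := by
          change 0 + i + j < _
          omega
        rw [f11 hl]
        exact kil hb _ _ _ _ _ h1 h2 hB
      · obtain rfl : o = 2 := Fin.ext ho
        change ¬ (i' + j' + 0 ≤ i + j + 1) at hcon
        have hB : ab7 2 + i + j < i' + j' + 2 := by
          change 1 + i + j < _
          omega
        rw [f12 hl]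
        exact kil hb _ _ _ _ _ h1 h2 hB
      · exact absurd hty (by decide)
    · obtain rfl | rfl | rfl | rfl : c = 0 ∨ c = 1 ∨ c = 2 ∨ c = 3 := by omega
      · exact absurd hty (by decide)
      · obtain rfl : o = 1 := Fin.ext ho
        change ¬ (i' + j' + 1 ≤ i + j + 0) at hcon
        have hB : ab7 1 + i + j < i' + j' + 2 := by
          change 0 + i + j < _
          omega
        rw [f21 hl]
        exact kil hb _ _ _ _ _ h1 h2 hB
      · obtain rfl : o = 2 := Fin.ext ho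
        change ¬ (i' + j' + 1 ≤ i + j + 1) at hcon
        have hB : ab7 2 + i + j < 1 + i' + j' := by
          change 1 + i + j < _
          omega
        rw [f22 hl]
        exact kil hb _ _ _ _ _ h1 h2 hB
      · exact absurd hty (by decide)
    · obtain rfl | rfl | rfl | rfl : c = 0 ∨ c = 1 ∨ c = 2 ∨ c = 3 := by omega
      · exact absurd hty (by decide)
      · exact absurd hty (by decide)
      · exact absurd hty (by decide)
      · obtain rfl : o = 3 := Fin.ext ho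
        change ¬ (i' + j' + 0 ≤ i + j + 0) at hcon
        have hB : ab7 3 + i + j < 1 + i' + j' := by
          change 1 + i + j < _
          omega
        rw [f3 hl]
        exact kil hb _ _ _ _ _ h1 h2 hB

end Pool.Agent.Helper34.S7
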